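import Pool.Agent.Helper94.UP.Sheet

/-! Row A3 of the sheet UP (second copy, helper74): local approximation of a `C^1` function. -/

open scoped ZeroAtInfty ContDiff NNReal
open Set Filter Topology MeasureTheory

namespace Pool.Agent.Helper94.UP

universe u

theorem h74_fderiv_le {X : Type u} [NormedAddCommGroup X] [NormedSpace ℝ X] (q : Seminorm ℝ X)
    (g : X → ℝ) (L0 : ℝ) (c : X) (hd : DifferentiableAt ℝ g c)
    (hg : ∀ x y, |g x - g y| ≤ L0 * q (x - y)) (v : X) : |fderiv ℝ g c v| ≤ L0 * q v := by
  have h1 : HasDerivAt (fun t : ℝ => g (c + t • v)) (fderiv ℝ g c v) 0 :=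
    hd.hasFDerivAt.hasLineDerivAt v
  have h3 : Tendsto (slope (fun t : ℝ => g (c + t • v)) 0) (𝓝[≠] 0) (𝓝 (fderiv ℝ g c v)) :=
    hasDerivAt_iff_tendsto_slope.1 h1
  refine le_of_tendsto h3.abs ?_
  filter_upwards [self_mem_nhdsWithin] with t ht
  have ht0 : t ≠ 0 := ht
  have ht1 : 0 < |t| := abs_pos.2 ht0
  rw [slope_def_field, abs_div, sub_zero, div_le_iff₀ ht1]
  have h4 := hg (c + t • v) (c + (0 : ℝ) • v)
  have h5 : c + t • v - (c + (0 : ℝ) • v) = t • v := by
    rw [zero_smul, add_zero, add_sub_cancel_left]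
  rw [h5, map_smul_eq_mul, Real.norm_eq_abs] at h4
  calc |g (c + t • v) - g (c + (0 : ℝ) • v)| ≤ L0 * (|t| * q v) := h4
    _ = L0 * q v * |t| := by ring

theorem stA3_74 (hME : ST_ME.{u}) : ST_A3.{u} := by
  intro k X _ _ D hD hApp q M hM hq1 hq2 g L0 κ hL0 hκ hgC hgL c
  have hdiff : DifferentiableAt ℝ g c := (hgC.differentiable (by norm_num)) c
  set T : X →L[ℝ] ℝ := fderiv ℝ g c with hT
  have hTq : ∀ v, |T v| ≤ L0 * q v := fun v => h74_fderiv_le q g L0 c hdiff hgL v
  set η : ℝ := κ / (D * M) with hη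
  have hη0 : 0 < η := by positivity
  have hηD : D * η * M = κ := by
    rw [hη]
    field_simp
  have hstrict : HasStrictFDerivAt g T c :=
    hgC.contDiffAt.hasStrictFDerivAt (by norm_num)
  have hbd := hstrict.isLittleO.bound hη0
  obtain ⟨r0, hr0, hball⟩ := Metric.eventually_nhds_iff.1 hbd
  refine ⟨r0 / 2, by positivity, fun e he => ?_⟩
  set r : ℝ := r0 / 2 with hr
  have hrpos : 0 < r := by positivity
  have hstr : ∀ x y, ‖x - c‖ ≤ r → ‖y - c‖ ≤ r → |g x - g y - T (x - y)| ≤ η * ‖x - y‖ := by
    intro x y hx hy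
    have h1 : dist (x, y) (c, c) < r0 := by
      rw [Prod.dist_eq, max_lt_iff, dist_eq_norm, dist_eq_norm]
      constructor
      · show ‖x - c‖ < r0
        rw [hr] at hx
        linarith
      · show ‖y - c‖ < r0
        rw [hr] at hy
        linarith
    have h2 := hball h1
    simpa [Real.norm_eq_abs] using h2
  obtain ⟨σ, hσ1, hσ2, hσ3⟩ := hME c r η (fun x => g x - g c - T (x - c)) hrpos hη0
    (by rw [sub_self, sub_self, map_zero, sub_zero]) (fun x y hx hy => by
      have h1 := hstr x y hx hy
      have h2 : g x - g c - T (x - c) - (g y - g c - T (y - c)) = g x - g y - T (x - y) := by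
        have h3 : T (x - c) - T (y - c) = T (x - y) := by
          rw [← map_sub]
          congr 1
          abel
        linarith
      show |g x - g c - T (x - c) - (g y - g c - T (y - c))| ≤ η * ‖x - y‖
      rw [h2]
      exact h1)
  have hA : 0 < 2 * η * r := by positivity
  obtain ⟨f', hf1, hf2, hf3⟩ := hApp (fun x => (σ x + η * r) / (2 * η * r)) (1 / (2 * r))
    (by positivity) (fun x => by
      have h1 := abs_le.1 (hσ2 x)
      constructor
      · apply div_nonneg _ hA.le
        linarith [h1.1]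
      · rw [div_le_one hA]
        linarith [h1.2]) (fun x y => by
      have h1 : (σ x + η * r) / (2 * η * r) - (σ y + η * r) / (2 * η * r) =
          (σ x - σ y) / (2 * η * r) := by
        rw [← sub_div]
        congr 1
        ring
      show |(σ x + η * r) / (2 * η * r) - (σ y + η * r) / (2 * η * r)| ≤ _
      rw [h1, abs_div, abs_of_pos hA, div_le_iff₀ hA]
      calc |σ x - σ y| ≤ η * ‖x - y‖ := hσ3 x y
        _ = 1 / (2 * r) * ‖x - y‖ * (2 * η * r) := by field_simp) (e / (2 * η * r))
    (by positivity)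
  refine ⟨fun x => g c + T (x - c) + 2 * η * r * f' x - η * r, ?_, ?_, ?_⟩
  · have h1 : ContDiff ℝ k (fun x => T (x - c)) :=
      T.contDiff.comp (contDiff_id.sub contDiff_const)
    exact ((contDiff_const.add h1).add (contDiff_const.mul hf1)).sub contDiff_const
  · intro x y
    have h1 : (g c + T (x - c) + 2 * η * r * f' x - η * r) -
        (g c + T (y - c) + 2 * η * r * f' y - η * r) = T (x - y) + 2 * η * r * (f' x - f' y) := by
      have h3 : T (x - c) - T (y - c) = T (x - y) := by
        rw [← map_sub]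
        congr 1
        abel
      linear_combination h3
    show |(g c + T (x - c) + 2 * η * r * f' x - η * r) -
        (g c + T (y - c) + 2 * η * r * f' y - η * r)| ≤ (L0 + κ) * q (x - y)
    rw [h1]
    have h4 : |2 * η * r * (f' x - f' y)| ≤ κ * q (x - y) := by
      rw [abs_mul, abs_of_pos hA]
      calc 2 * η * r * |f' x - f' y| ≤ 2 * η * r * (D * (1 / (2 * r)) * ‖x - y‖) :=
            mul_le_mul_of_nonneg_left (hf2 x y) hA.le
        _ = D * η * ‖x - y‖ := by field_simp
        _ ≤ D * η * (M * q (x - y)) :=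
            mul_le_mul_of_nonneg_left (hq2 _) (by positivity)
        _ = κ * q (x - y) := by rw [← hηD]; ring
    calc |T (x - y) + 2 * η * r * (f' x - f' y)|
        ≤ |T (x - y)| + |2 * η * r * (f' x - f' y)| := abs_add_le _ _
      _ ≤ L0 * q (x - y) + κ * q (x - y) := add_le_add (hTq _) h4
      _ = (L0 + κ) * q (x - y) := by ring
  · intro x hx
    have h1 : g x = g c + T (x - c) + σ x := by
      rw [hσ1 x hx]
      ring
    have h2 : (g c + T (x - c) + 2 * η * r * f' x - η * r) - g x =
        2 * η * r * (f' x - (σ x + η * r) / (2 * η * r)) := by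
      rw [h1, mul_sub, mul_div_cancel₀ _ hA.ne']
      ring
    show |(g c + T (x - c) + 2 * η * r * f' x - η * r) - g x| ≤ e
    rw [h2, abs_mul, abs_of_pos hA]
    calc 2 * η * r * |f' x - (σ x + η * r) / (2 * η * r)|
        ≤ 2 * η * r * (e / (2 * η * r)) := mul_le_mul_of_nonneg_left (hf3 x) hA.le
      _ = e := by field_simp

end Pool.Agent.Helper94.UP
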